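import Pool.Agent.Y264.QR.Stm
import Pool.Agent.Y592.QE.Spec

/-!
# Project QR: one parameter
-/

set_option autoImplicit false

open Set Filter Topology MeasureTheory
open scoped Real

namespace Pool.Agent.Y155.QR

open Pool.Agent.Y262.QE Pool.Agent.Y264.QR

section av

variable {M : Type} [MetricSpace M] [CompactSpace M] [MeasurableSpace M] [BorelSpace M]
  (μ : Measure M) [IsFiniteMeasure μ]

theorem int_cont {g : M → ℝ} (hg : Continuous g) : Integrable g μ :=
  hg.integrable_of_hasCompactSupport (HasCompactSupport.of_compactSpace g)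

theorem hd (f φ h : C(M, ℝ)) (t : ℝ) :
    HasDerivAt (fun s : ℝ => ∫ x, f x * Real.exp ((φ + s • h) x) ∂μ)
      (∫ x, (f * h) x * Real.exp ((φ + t • h) x) ∂μ) t := by
  refine (hasDerivAt_integral_of_dominated_loc_of_deriv_le
    (F := fun s x => f x * Real.exp ((φ + s • h) x))
    (F' := fun s x => (f * h) x * Real.exp ((φ + s • h) x))
    (bound := fun _ => ‖f‖ * ‖h‖ * Real.exp (‖φ‖ + (|t| + 1) * ‖h‖))
    (s := Metric.ball t 1) (Metric.ball_mem_nhds t one_pos) ?_ ?_ ?_ ?_ ?_ ?_).2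
  · exact Eventually.of_forall fun s =>
      (by fun_prop : Continuous fun x => f x * Real.exp ((φ + s • h) x)).aestronglyMeasurable
  · exact int_cont μ (by fun_prop)
  · exact (by fun_prop :
      Continuous fun x => (f * h) x * Real.exp ((φ + t • h) x)).aestronglyMeasurable
  · refine ae_of_all _ fun x s hs => ?_
    have h1 : |s| ≤ |t| + 1 := by
      rw [Metric.mem_ball, Real.dist_eq] at hs
      have h2 := abs_sub_abs_le_abs_sub s t
      linarith
    have h2 : (φ + s • h) x ≤ ‖φ‖ + (|t| + 1) * ‖h‖ := by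
      have h3 : φ x ≤ ‖φ‖ := (le_abs_self _).trans (φ.norm_coe_le_norm x)
      have h4 : s * h x ≤ (|t| + 1) * ‖h‖ := by
        calc s * h x ≤ |s * h x| := le_abs_self _
          _ = |s| * |h x| := abs_mul _ _
          _ ≤ (|t| + 1) * ‖h‖ :=
            mul_le_mul h1 (h.norm_coe_le_norm x) (abs_nonneg _) (by positivity)
      simp only [ContinuousMap.add_apply, ContinuousMap.smul_apply, smul_eq_mul]
      linarith
    simp only [ContinuousMap.mul_apply]
    rw [Real.norm_eq_abs, abs_mul, abs_mul, Real.abs_exp]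
    have h5 : |f x| * |h x| ≤ ‖f‖ * ‖h‖ :=
      mul_le_mul (f.norm_coe_le_norm x) (h.norm_coe_le_norm x) (abs_nonneg _) (norm_nonneg _)
    exact mul_le_mul h5 (Real.exp_le_exp.2 h2) (Real.exp_pos _).le (by positivity)
  · exact integrable_const _
  · refine ae_of_all _ fun x s _ => ?_
    have h1 : HasDerivAt (fun s : ℝ => (φ + s • h) x) (h x) s := by
      simp only [ContinuousMap.add_apply, ContinuousMap.smul_apply, smul_eq_mul]
      have h2 := ((hasDerivAt_id s).mul_const (h x)).const_add (φ x)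
      rw [one_mul] at h2
      exact h2
    have h3 := h1.exp.const_mul (f x)
    have e : (f * h) x * Real.exp ((φ + s • h) x) =
        f x * (Real.exp ((φ + s • h) x) * h x) := by
      simp only [ContinuousMap.mul_apply]
      ring
    rw [e]
    exact h3

theorem hdA (φ h : C(M, ℝ)) (t : ℝ) :
    HasDerivAt (fun s : ℝ => ∫ x, Real.exp ((φ + s • h) x) ∂μ)
      (∫ x, h x * Real.exp ((φ + t • h) x) ∂μ) t := by
  have h1 := hd μ 1 φ h t
  simp only [one_mul, ContinuousMap.one_apply] at h1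
  exact h1

theorem cB (φ h : C(M, ℝ)) :
    Continuous (fun t : ℝ => ∫ x, h x * Real.exp ((φ + t • h) x) ∂μ) :=
  continuous_iff_continuousAt.2 fun t => (hd μ h φ h t).continuousAt

theorem cA (φ h : C(M, ℝ)) : Continuous (fun t : ℝ => ∫ x, Real.exp ((φ + t • h) x) ∂μ) :=
  continuous_iff_continuousAt.2 fun t => (hdA μ φ h t).continuousAt

theorem avg_cont (hA : ∀ φ : C(M, ℝ), 0 < ∫ x, Real.exp (φ x) ∂μ) (φ h : C(M, ℝ)) :
    Continuous fun t : ℝ => avg μ h (φ + t • h) :=
  (cB μ φ h).div (cA μ φ h) fun t => (hA (φ + t • h)).ne'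

theorem avg_le (hA : ∀ φ : C(M, ℝ), 0 < ∫ x, Real.exp (φ x) ∂μ) (φ h : C(M, ℝ)) :
    |avg μ h φ| ≤ ‖h‖ := by
  rw [avg, abs_div, abs_of_pos (hA φ), div_le_iff₀ (hA φ), ← integral_const_mul]
  refine (abs_integral_le_integral_abs).trans
    (integral_mono (int_cont μ (by fun_prop)) (int_cont μ (by fun_prop)) fun x => ?_)
  show |h x * Real.exp (φ x)| ≤ ‖h‖ * Real.exp (φ x)
  rw [abs_mul, Real.abs_exp]
  exact mul_le_mul_of_nonneg_right (h.norm_coe_le_norm x) (Real.exp_pos _).le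

theorem avg_int (hA : ∀ φ : C(M, ℝ), 0 < ∫ x, Real.exp (φ x) ∂μ) (φ h : C(M, ℝ)) (α β : ℝ) :
    ∫ t in α..β, avg μ h (φ + t • h) =
      Real.log (∫ x, Real.exp ((φ + β • h) x) ∂μ) -
        Real.log (∫ x, Real.exp ((φ + α • h) x) ∂μ) :=
  intervalIntegral.integral_eq_sub_of_hasDerivAt
    (fun t _ => (hdA μ φ h t).log (hA (φ + t • h)).ne')
    ((avg_cont μ hA φ h).intervalIntegrable _ _)

end av

/-- **One parameter.** -/
theorem oneP (hAE : StAE) (hFTC : StFTC) (hDens : StDens) (hFm : StFm) (hLip : StLip)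
    (hDer : StDer0) : StOneP := by
  intro M _ _ _ _ μ _ H _ _ i a b hSf hB hW φ h e E hE
  obtain ⟨b0, hB0, hF, hA, hexp, hk⟩ := hFm M μ H i a hSf
  have hbb : b0 = b := by
    funext ψ
    ext u v
    rw [hB0, hB]
  subst hbb
  obtain ⟨k, ksym, k1, k2⟩ := hk h
  obtain ⟨l1, l2, l3, -, l5⟩ := hLip M μ H a b0 hF hexp
  have hmm : ∀ t j, Ev a (b0 (φ + t • h)) j = E t j := fun t j =>
    Pool.Agent.Y592.QE.mm H a (b0 (φ + t • h)) (hF _) (e t) (E t) (hE t) j
  have hLp : ∀ (j : ℕ) (s t : ℝ), Ev a (b0 (φ + s • h)) j ≤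
      Real.exp (‖h‖ * |s - t|) * Ev a (b0 (φ + t • h)) j := by
    intro j s t
    have h1 := l3 (φ + s • h) (φ + t • h) j
    have e1 : ‖(φ + s • h) - (φ + t • h)‖ = ‖h‖ * |s - t| := by
      rw [add_sub_add_left_eq_sub, ← sub_smul, norm_smul, Real.norm_eq_abs, mul_comm]
    rw [e1] at h1
    exact h1
  have c1 := hAE (fun j t => Ev a (b0 (φ + t • h)) j)
    (fun j t => kap μ i h (φ + t • h) (e t j)) ‖h‖ (fun j t => l1 _ _)
    (fun i' j t hij => l2 _ _ _ hij) hLp (by
      intro i' j t hij hl ε hε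
      have hij' : E t i' = E t j := by rw [← hmm, ← hmm]; exact hij
      have hl' : ∀ l, l < i' → E t l < E t i' := by
        intro l hli
        rw [← hmm, ← hmm]
        exact hl l hli
      obtain ⟨δ, hδ, h1⟩ := hDer H a (b0 (φ + t • h)) (hF _) (e t) (E t) (hE t)
        (k (φ + t • h)) ‖h‖ (ksym _) (fun v => (k1 _ v).2) i' j hij' hl' ε hε
      refine ⟨δ, hδ, fun τ hτ => ?_⟩
      have h2 := h1 τ hτ (b0 (φ + (t + τ) • h)) (by
        intro v
        have h3 := k2 (φ + t • h) v τ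
        have e1 : φ + t • h + τ • h = φ + (t + τ) • h := by rw [add_smul, add_assoc]
        rw [e1] at h3
        exact h3)
      rw [(k1 _ _).1, ← hmm] at h2
      exact h2)
  refine ⟨c1, fun χ hχ => ?_⟩
  -- positivity
  obtain ⟨J, hJ⟩ : ∃ J : ℕ, ∀ j, J ≤ j → ∀ ψ, 0 < Ev a (b0 ψ) j := by
    have h1 := hW φ
    have h2 : (0 : ℝ) < 4 * π / ∫ x, Real.exp (φ x) ∂μ :=
      div_pos (by positivity) (hA φ)
    obtain ⟨J, hJ⟩ := eventually_atTop.1 (h1.eventually (lt_mem_nhds h2))
    refine ⟨J, fun j hj => ?_⟩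
    rcases l5 j with h3 | h3
    · exfalso
      have h4 := hJ j hj
      rw [h3 φ, zero_div] at h4
      exact lt_irrefl _ h4
    · exact h3
  have hftc : ∀ j, J ≤ j →
      (∀ᵐ t : ℝ, |kap μ i h (φ + t • h) (e t j)| ≤ ‖h‖) ∧
      AEMeasurable (fun t : ℝ => kap μ i h (φ + t • h) (e t j)) volume ∧
      ∀ α β : ℝ, α ≤ β → ∫ t in α..β, kap μ i h (φ + t • h) (e t j) =
        Real.log (Ev a (b0 (φ + α • h)) j) - Real.log (Ev a (b0 (φ + β • h)) j) := by
    intro j hj
    exact hFTC (fun t => Ev a (b0 (φ + t • h)) j) (fun t => kap μ i h (φ + t • h) (e t j)) ‖h‖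
      (fun t => hJ j hj _) (hLp j) (c1.mono fun t ht => ht j)
  have h1 := hDens (fun j t => kap μ i h (φ + t • h) (e t (j + J)))
    (fun t => avg μ h (φ + t • h)) ‖h‖ (fun j => (hftc (j + J) (by omega)).2.1)
    (avg_cont μ hA φ h).measurable.aemeasurable (fun j => (hftc (j + J) (by omega)).1)
    (ae_of_all _ fun t => avg_le μ hA _ h) (by
      intro α β hαβ
      have hlog : ∀ t : ℝ, Tendsto
          (fun j : ℕ => Real.log (Ev a (b0 (φ + t • h)) (j + J) / (((j + J : ℕ) : ℝ) + 1))) atTop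
          (𝓝 (Real.log (4 * π / ∫ x, Real.exp ((φ + t • h) x) ∂μ))) := by
        intro t
        have h2 := (tendsto_add_atTop_iff_nat J).2 (hW (φ + t • h))
        exact h2.log (div_pos (by positivity) (hA _)).ne'
      have h3 := (hlog α).sub (hlog β)
      have e1 : Real.log (4 * π / ∫ x, Real.exp ((φ + α • h) x) ∂μ) -
          Real.log (4 * π / ∫ x, Real.exp ((φ + β • h) x) ∂μ) =
          ∫ t in α..β, avg μ h (φ + t • h) := by
        rw [avg_int μ hA, Real.log_div (by positivity) (hA _).ne',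
          Real.log_div (by positivity) (hA _).ne']
        ring
      rw [e1] at h3
      refine h3.congr fun j => ?_
      rw [(hftc (j + J) (by omega)).2.2 α β hαβ]
      have hj : ((j + J : ℕ) : ℝ) + 1 ≠ 0 := by positivity
      rw [Real.log_div (hJ (j + J) (by omega) _).ne' hj,
        Real.log_div (hJ (j + J) (by omega) _).ne' hj]
      ring) χ hχ
  exact (tendsto_add_atTop_iff_nat (f := fun j => ∫ t, χ t * kap μ i h (φ + t • h) (e t j)) J).1 h1

end Pool.Agent.Y155.QR
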